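import Pool.Agent.R171.YG.Stm

/-! Piece A of project YG (helper711): convex polygons with prescribed turns and side lengths. -/

set_option autoImplicit false

open Complex Finset

namespace Pool.Agent.R711.YG

open Pool.Agent.R171.YG

/-! ### sums over the integers -/

theorem exists_sum {M : Type} [AddCommGroup M] (e : ℤ → M) :
    ∃ p : ℤ → M, p 0 = 0 ∧ ∀ i, p (i + 1) = p i + e i := by
  let p : ℤ → M := fun i => match i with
    | Int.ofNat n => ∑ j ∈ range n, e j
    | Int.negSucc n => -∑ j ∈ range (n + 1), e (-1 - (j : ℤ))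
  refine ⟨p, ?_, ?_⟩
  · show ∑ j ∈ range 0, e (j : ℤ) = 0
    simp
  · intro i
    match i with
    | Int.ofNat n =>
      show ∑ j ∈ range (n + 1), e (j : ℤ) = ∑ j ∈ range n, e (j : ℤ) + e (Int.ofNat n)
      rw [sum_range_succ]
      rfl
    | Int.negSucc 0 =>
      show p (Int.negSucc 0 + 1) = p (Int.negSucc 0) + e (Int.negSucc 0)
      have h1 : Int.negSucc 0 + 1 = Int.ofNat 0 := rfl
      rw [h1]
      show ∑ j ∈ range 0, e (j : ℤ) = -∑ j ∈ range (0 + 1), e (-1 - (j : ℤ)) + e (Int.negSucc 0)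
      simp
    | Int.negSucc (n + 1) =>
      have h1 : Int.negSucc (n + 1) + 1 = Int.negSucc n := rfl
      rw [h1]
      show -∑ j ∈ range (n + 1), e (-1 - (j : ℤ)) =
        -∑ j ∈ range (n + 1 + 1), e (-1 - (j : ℤ)) + e (Int.negSucc (n + 1))
      rw [sum_range_succ _ (n + 1)]
      have h2 : Int.negSucc (n + 1) = -1 - ((n + 1 : ℕ) : ℤ) := by
        rw [Int.negSucc_eq]
        push_cast
        ring
      rw [h2]
      abel

theorem add_nat {M : Type} [AddCommGroup M] {e p : ℤ → M} (h : ∀ i, p (i + 1) = p i + e i)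
    (j : ℤ) (m : ℕ) : p (j + m) = p j + ∑ t ∈ range m, e (j + t) := by
  induction m with
  | zero => simp
  | succ m ih =>
    have h1 : j + ((m + 1 : ℕ) : ℤ) = (j + m) + 1 := by push_cast; ring
    rw [h1, h, ih, sum_range_succ, add_assoc]

theorem const_of_step {M : Type} [AddCommGroup M] {D : ℤ → M} (h : ∀ i, D (i + 1) = D i) (i : ℤ) :
    D i = D 0 := by
  induction i using Int.induction_on with
  | zero => rfl
  | succ i ih => rw [h, ih]
  | pred i ih =>
    have := h (-(i : ℤ) - 1)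
    rw [show (-(i : ℤ) - 1) + 1 = -(i : ℤ) by ring] at this
    rw [← this, ih]

/-! ### general convex polygons -/

theorem im_conj (θ φ l : ℝ) : (((l : ℂ) * exp ((θ : ℂ) * I)) *
    (starRingEnd ℂ) (exp ((φ : ℂ) * I))).im = l * Real.sin (θ - φ) := by
  have h1 : (starRingEnd ℂ) (exp ((φ : ℂ) * I)) = exp (-((φ : ℂ) * I)) := by
    rw [← exp_conj]
    congr 1
    simp
  have h2 : (l : ℂ) * exp ((θ : ℂ) * I) * exp (-((φ : ℂ) * I)) =
      (l : ℂ) * exp (((θ - φ : ℝ) : ℂ) * I) := by
    rw [mul_assoc, ← exp_add]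
    congr 2
    push_cast
    ring
  rw [h1, h2, im_ofReal_mul, exp_ofReal_mul_I_im]

theorem im_sum {ι : Type} (s : Finset ι) (f : ι → ℂ) (u : ℂ) :
    ((∑ t ∈ s, f t) * u).im = ∑ t ∈ s, (f t * u).im := by
  rw [sum_mul, Complex.im_sum]

theorem mk_polygon (n : ℕ) (hn : 3 ≤ n) (len Θ : ℤ → ℝ) (hlen : ∀ i, 0 < len i)
    (hper : ∀ i, len (i + n) = len i) (hΘ1 : ∀ i, Θ i < Θ (i + 1))
    (hΘ2 : ∀ i, Θ (i + 1) - Θ i < Real.pi) (hΘn : ∀ i, Θ (i + n) = Θ i + 2 * Real.pi)
    (hclose : ∑ t ∈ range n, (len (t : ℤ) : ℂ) * exp ((Θ (t : ℤ) : ℂ) * I) = 0) :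
    ∃ P : Polygon n, (∀ i, P.s (i + 1) = P.s i + len i) ∧
      ∀ i, P.turn i = Θ i - Θ (i - 1) := by
  have hmono : StrictMono Θ := strictMono_int_of_lt_succ hΘ1
  set e : ℤ → ℂ := fun i => (len i : ℂ) * exp ((Θ i : ℂ) * I) with he
  obtain ⟨p, hp0, hp⟩ := exists_sum e
  obtain ⟨s, hs0, hs⟩ := exists_sum len
  have hexp : ∀ i, exp ((Θ (i + n) : ℂ) * I) = exp ((Θ i : ℂ) * I) := by
    intro i
    rw [hΘn]
    push_cast
    rw [add_mul, exp_add, exp_two_pi_mul_I, mul_one]
  have hpn : ∀ i, p (i + n) = p i := by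
    intro i
    have h1 : p (i + n) - p i = p (0 + n) - p 0 := const_of_step (D := fun i => p (i + n) - p i) (by
      intro i
      show p (i + 1 + n) - p (i + 1) = p (i + n) - p i
      have h2 : i + 1 + (n : ℤ) = (i + n) + 1 := by ring
      rw [h2, hp, hp]
      have h3 : e (i + n) = e i := by
        simp only [he]
        rw [hper, hexp]
      rw [h3]
      ring) i
    have h4 := add_nat hp 0 n
    have h5 : ∑ t ∈ range n, e (0 + (t : ℤ)) = 0 := by
      simp only [zero_add, he]
      exact hclose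
    rw [h5, add_zero] at h4
    rw [h4, sub_self] at h1
    exact sub_eq_zero.1 h1
  have hdiff : ∀ i, p (i + 1) - p i = e i := by
    intro i
    rw [hp]
    ring
  have hnorm : ∀ i, ‖p (i + 1) - p i‖ = len i := by
    intro i
    rw [hdiff]
    simp only [he]
    rw [norm_mul, norm_exp_ofReal_mul_I, mul_one, Complex.norm_real, Real.norm_eq_abs,
      abs_of_pos (hlen i)]
  -- the convexity
  set u : ℤ → ℂ := fun j => (starRingEnd ℂ) (exp ((Θ j : ℂ) * I)) with hu
  have hN : ∀ (j : ℤ) (k : ℕ), ((p (j + k) - p j) * u j).im =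
      ∑ t ∈ range k, len (j + t) * Real.sin (Θ (j + t) - Θ j) := by
    intro j k
    rw [add_nat hp j k, add_sub_cancel_left, Pool.Agent.R711.YG.im_sum]
    apply sum_congr rfl
    intro t _
    exact im_conj _ _ _
  have hNpos : ∀ (j : ℤ) (k : ℕ), 2 ≤ k → k ≤ n - 1 → 0 < ((p (j + k) - p j) * u j).im := by
    intro j k hk1 hk2
    have hlt : ∀ t : ℕ, t < n → Θ (j + t) - Θ j < 2 * Real.pi := by
      intro t ht
      have h1 : Θ (j + t) < Θ (j + n) := hmono (by omega)
      rw [hΘn] at h1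
      linarith
    have hge : ∀ t : ℕ, 0 ≤ Θ (j + t) - Θ j := by
      intro t
      have h1 : Θ j ≤ Θ (j + t) := hmono.monotone (by omega)
      linarith
    rcases le_or_gt (Θ (j + ((k - 1 : ℕ) : ℤ)) - Θ j) Real.pi with hc | hc
    · rw [hN]
      apply sum_pos'
      · intro t ht
        rw [mem_range] at ht
        apply mul_nonneg (hlen _).le
        apply Real.sin_nonneg_of_nonneg_of_le_pi (hge t)
        have h1 : Θ (j + t) ≤ Θ (j + ((k - 1 : ℕ) : ℤ)) := hmono.monotone (by omega)
        linarith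
      · refine ⟨1, mem_range.2 (by omega), ?_⟩
        apply mul_pos (hlen _)
        apply Real.sin_pos_of_pos_of_lt_pi
        · have h1 := hΘ1 j
          push_cast
          linarith
        · have h1 := hΘ2 j
          push_cast
          exact h1
    · have h0 : ((p (j + n) - p j) * u j).im = 0 := by
        rw [hpn, sub_self, zero_mul, zero_im]
      rw [hN] at h0 ⊢
      have hsplit : ∑ t ∈ range n, len (j + t) * Real.sin (Θ (j + t) - Θ j) =
          ∑ t ∈ range k, len (j + t) * Real.sin (Θ (j + t) - Θ j) +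
          ∑ t ∈ Ico k n, len (j + t) * Real.sin (Θ (j + t) - Θ j) :=
        (sum_range_add_sum_Ico _ (by omega)).symm
      have hneg : ∑ t ∈ Ico k n, len (j + t) * Real.sin (Θ (j + t) - Θ j) < 0 := by
        apply sum_neg
        · intro t ht
          rw [mem_Ico] at ht
          apply mul_neg_of_pos_of_neg (hlen _)
          have h1 : Θ (j + ((k - 1 : ℕ) : ℤ)) ≤ Θ (j + t) := hmono.monotone (by omega)
          have h2 := hlt t ht.2
          have h3 : 0 < Real.sin (Θ (j + t) - Θ j - Real.pi) :=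
            Real.sin_pos_of_pos_of_lt_pi (by linarith) (by linarith)
          rw [Real.sin_sub_pi] at h3
          linarith
        · exact ⟨k, mem_Ico.2 ⟨le_rfl, by omega⟩⟩
      linarith
  have hzero : ∀ j, ((p (j + 1) - p j) * u j).im = 0 := by
    intro j
    have h1 := hN j 1
    simp only [Nat.cast_one, range_one, sum_singleton, Nat.cast_zero, add_zero, sub_self,
      Real.sin_zero, mul_zero] at h1
    exact h1
  have hturn : ∀ i, arg ((p (i + 1) - p i) / (p i - p (i - 1))) = Θ i - Θ (i - 1) := by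
    intro i
    have h1 : p i - p (i - 1) = e (i - 1) := by
      have := hdiff (i - 1)
      rwa [sub_add_cancel] at this
    rw [hdiff, h1]
    have h2 : e i / e (i - 1) = ((len i / len (i - 1) : ℝ) : ℂ) *
        (Complex.cos ((Θ i - Θ (i - 1) : ℝ) : ℂ) + Complex.sin ((Θ i - Θ (i - 1) : ℝ) : ℂ) * I) := by
      rw [← exp_mul_I]
      simp only [he]
      have h3 : exp ((Θ i : ℂ) * I) = exp (((Θ i - Θ (i - 1) : ℝ) : ℂ) * I) *
          exp ((Θ (i - 1) : ℂ) * I) := by
        rw [← exp_add]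
        congr 1
        push_cast
        ring
      rw [h3]
      have h4 : exp ((Θ (i - 1) : ℂ) * I) ≠ 0 := exp_ne_zero _
      have h5 : (len (i - 1) : ℂ) ≠ 0 := by
        exact_mod_cast (hlen (i - 1)).ne'
      push_cast
      field_simp
    rw [h2]
    have h6 := hΘ1 (i - 1)
    have h7 := hΘ2 (i - 1)
    rw [sub_add_cancel] at h6 h7
    apply arg_mul_cos_add_sin_mul_I (div_pos (hlen _) (hlen _))
    constructor
    · have := Real.pi_pos
      linarith
    · linarith
  have hseg : ∀ i (z : ℂ), z ∈ segment ℝ (p i) (p (i + 1)) → ((z - p i) * u i).im = 0 := by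
    intro i z hz
    rw [segment_eq_image'] at hz
    obtain ⟨θ, _, rfl⟩ := hz
    have h1 : (p i + θ • (p (i + 1) - p i) - p i) * u i = (θ : ℂ) * ((p (i + 1) - p i) * u i) := by
      rw [real_smul]
      ring
    rw [h1, im_ofReal_mul, hzero, mul_zero]
  refine ⟨{ three_le := hn, p := p, periodic := hpn, adjacent := ?_, disjoint := ?_, s := s,
            s_zero := hs0, s_succ := ?_, side_pos := ?_, turning := ?_ }, hs, fun i => hturn i⟩
  · intro i
    ext z
    constructor
    · rintro ⟨h1, h2⟩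
      have h3 := hseg i z h1
      rw [segment_eq_image'] at h2
      obtain ⟨τ, _, rfl⟩ := h2
      have h4 : (p (i + 1) + τ • (p (i + 2) - p (i + 1)) - p i) * u i =
          ((1 - τ : ℝ) : ℂ) * ((p (i + 1) - p i) * u i) +
            (τ : ℂ) * ((p (i + 2) - p i) * u i) := by
        rw [real_smul]
        push_cast
        ring
      rw [h4, add_im, im_ofReal_mul, im_ofReal_mul, hzero, mul_zero, zero_add] at h3
      have h5 := hNpos i 2 le_rfl (by omega)
      have h6 : τ = 0 := by
        rcases mul_eq_zero.1 h3 with h | h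
        · exact h
        · push_cast at h5
          rw [h] at h5
          exact absurd h5 (lt_irrefl _)
      show p (i + 1) + τ • (p (i + 2) - p (i + 1)) ∈ ({p (i + 1)} : Set ℂ)
      rw [h6, zero_smul, add_zero]
      rfl
    · intro hz
      rw [Set.mem_singleton_iff] at hz
      subst hz
      exact ⟨right_mem_segment ℝ _ _, left_mem_segment ℝ _ _⟩
  · intro i j h1 h2
    rw [Set.disjoint_left]
    intro z hz1 hz2
    have h3 := hseg i z hz1
    rw [segment_eq_image'] at hz2
    obtain ⟨τ, hτ, rfl⟩ := hz2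
    obtain ⟨k, hk⟩ : ∃ k : ℕ, j = i + k := ⟨j - i, by omega⟩
    subst hk
    simp only [Nat.cast_add] at h3
    have h4 : (p (i + k) + τ • (p (i + k + 1) - p (i + k)) - p i) * u i =
        ((1 - τ : ℝ) : ℂ) * ((p (i + k) - p i) * u i) +
          (τ : ℂ) * ((p (i + k + 1) - p i) * u i) := by
      rw [real_smul]
      push_cast
      ring
    rw [h4, add_im, im_ofReal_mul, im_ofReal_mul] at h3
    have h5 := hNpos i k (by omega) (by omega)
    have h6 := hNpos i (k + 1) (by omega) (by omega)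
    push_cast at h6
    rw [← add_assoc] at h6
    rcases hτ.1.eq_or_lt with h | h
    · rw [← h] at h3
      simp only [sub_zero, one_mul, zero_mul, add_zero] at h3
      linarith
    · have h7 : 0 ≤ (1 - τ) * ((p (i + k) - p i) * u i).im :=
        mul_nonneg (by linarith [hτ.2]) h5.le
      have h8 := mul_pos h h6
      linarith
  · intro i
    rw [hnorm, hs]
  · intro i
    rw [hnorm]
    exact hlen i
  · rw [sum_congr rfl (fun (i : ℕ) _ => hturn (i : ℤ))]
    have h1 := sum_range_sub (fun k : ℕ => Θ ((k : ℤ) - 1)) n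
    have h2 : ∀ k : ℕ, Θ (((k + 1 : ℕ) : ℤ) - 1) - Θ ((k : ℤ) - 1) = Θ (k : ℤ) - Θ ((k : ℤ) - 1) := by
      intro k
      congr 2
      push_cast
      ring
    rw [sum_congr rfl (fun k _ => h2 k)] at h1
    rw [h1]
    have h3 := hΘn (-1)
    have h4 : (-1 : ℤ) + n = n - 1 := by ring
    rw [h4] at h3
    simp only [Nat.cast_zero, zero_sub]
    rw [h3]
    ring

/-! ### the special polygon -/

theorem emod_aux {n : ℕ} {r q : ℤ} (h0 : 0 ≤ r) (h1 : r < n) :
    (r + (n : ℤ) * q) % n = r ∧ (r + (n : ℤ) * q) / n = q := by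
  have hn : (n : ℤ) ≠ 0 := by omega
  constructor
  · rw [Int.add_mul_emod_self_left, Int.emod_eq_of_lt h0 h1]
  · rw [Int.add_mul_ediv_left _ _ hn, Int.ediv_eq_zero_of_lt h0 h1, zero_add]

/-- directions -/
noncomputable def thz (n : ℕ) (h : ℝ) (r : ℤ) : ℝ := if r = n - 1 then n * h else r * h

/-- the angle function -/
noncomputable def Th (n : ℕ) (h : ℝ) (i : ℤ) : ℝ :=
  thz n h (i % n) + 2 * Real.pi * ((i / n : ℤ) : ℝ)

/-- the side lengths -/
noncomputable def Ln (n : ℕ) (R₁ R₂ : ℝ) (ℓ : ℕ → ℝ) (i : ℤ) : ℝ :=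
  if i % n = 0 then R₁ else if i % n = n - 1 then R₂ else ℓ (i % n).toNat

theorem Th_eq {n : ℕ} {h : ℝ} {r q : ℤ} (h0 : 0 ≤ r) (h1 : r < n) :
    Th n h (r + n * q) = thz n h r + 2 * Real.pi * (q : ℝ) := by
  unfold Th
  rw [(emod_aux h0 h1).1, (emod_aux h0 h1).2]

theorem Th_small {n : ℕ} {h : ℝ} {r : ℤ} (h0 : 0 ≤ r) (h1 : r < n) : Th n h r = thz n h r := by
  have := Th_eq (h := h) (q := 0) h0 h1
  rw [mul_zero, add_zero, Int.cast_zero, mul_zero, add_zero] at this
  exact this

theorem Th_add {n : ℕ} (hn : 0 < n) (h : ℝ) (i : ℤ) : Th n h (i + n) = Th n h i + 2 * Real.pi := by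
  have hn' : (n : ℤ) ≠ 0 := by omega
  have h0 := Int.emod_nonneg i hn'
  have h1 := Int.emod_lt_of_pos i (by omega : (0 : ℤ) < n)
  have e : i = i % n + n * (i / n) := (Int.emod_add_mul_ediv i n).symm
  have e2 : i + n = i % n + n * (i / n + 1) := by
    nth_rewrite 1 [e]
    ring
  rw [e2, Th_eq h0 h1]
  nth_rewrite 3 [e]
  rw [Th_eq h0 h1]
  push_cast
  ring

theorem Th_step {n : ℕ} (hn : 2 ≤ n) {h : ℝ} (hh : ((n : ℝ) - 1) * h = Real.pi) (i : ℤ) :
    Th n h (i + 1) - Th n h i = if i % n = n - 1 then Real.pi - h else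
      if i % n = n - 2 then 2 * h else h := by
  have hn' : (n : ℤ) ≠ 0 := by omega
  have h0 := Int.emod_nonneg i hn'
  have h1 := Int.emod_lt_of_pos i (by omega : (0 : ℤ) < n)
  have e : i = i % n + n * (i / n) := (Int.emod_add_mul_ediv i n).symm
  set r := i % n with hr
  set q := i / n with hq
  have e3 : Th n h i = thz n h r + 2 * Real.pi * (q : ℝ) := by
    rw [e]
    exact Th_eq h0 h1
  rw [e3]
  by_cases hc : r = n - 1
  · have e2 : i + 1 = 0 + n * (q + 1) := by
      rw [e, hc]
      ring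
    rw [e2, Th_eq le_rfl (by omega), if_pos hc, hc]
    unfold thz
    rw [if_pos rfl, if_neg (by omega)]
    push_cast
    linarith
  · have e2 : i + 1 = (r + 1) + n * q := by
      rw [e]
      ring
    rw [e2, Th_eq (by omega) (by omega), if_neg hc]
    unfold thz
    rw [if_neg hc]
    by_cases hc2 : r = n - 2
    · rw [if_pos hc2, if_pos (by omega), hc2]
      push_cast
      ring
    · rw [if_neg hc2, if_neg (by omega)]
      push_cast
      ring

theorem stmtA : StmtA := by
  intro n hn ℓ hℓ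
  have hn4 : (4 : ℝ) ≤ n := by exact_mod_cast hn
  set h : ℝ := Real.pi / (n - 1) with hh
  have hn1 : (0 : ℝ) < (n : ℝ) - 1 := by linarith
  have hpi := Real.pi_pos
  have hpos : 0 < h := div_pos hpi hn1
  have hnh : ((n : ℝ) - 1) * h = Real.pi := by
    rw [hh]
    field_simp
  have hlt : 2 * h < Real.pi := by
    nlinarith
  have hsin : 0 < Real.sin h := Real.sin_pos_of_pos_of_lt_pi hpos (by linarith)
  -- facts on the directions
  have hk : ∀ k ∈ Ico 1 (n - 1), h ≤ k * h ∧ k * h ≤ Real.pi - h := by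
    intro k hk
    rw [mem_Ico] at hk
    have h1 : (1 : ℝ) ≤ k := by exact_mod_cast hk.1
    have h2 : (k : ℝ) + 2 ≤ n := by exact_mod_cast (by omega : k + 2 ≤ n)
    constructor
    · nlinarith
    · nlinarith
  have hsk : ∀ k ∈ Ico 1 (n - 1), Real.sin h ≤ Real.sin (k * h) := by
    intro k hk'
    obtain ⟨h1, h2⟩ := hk k hk'
    rcases le_total ((k : ℝ) * h) (Real.pi / 2) with hc | hc
    · exact Real.sin_le_sin_of_le_of_le_pi_div_two (by linarith) hc h1
    · rw [← Real.sin_pi_sub (k * h)]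
      exact Real.sin_le_sin_of_le_of_le_pi_div_two (by linarith) (by linarith) (by linarith)
  have hsk' : ∀ k ∈ Ico 1 (n - 1), 0 ≤ Real.sin (((k : ℝ) - 1) * h) := by
    intro k hk'
    obtain ⟨h1, h2⟩ := hk k hk'
    apply Real.sin_nonneg_of_nonneg_of_le_pi
    · linarith
    · linarith
  set S₂ := ∑ k ∈ Ico 1 (n - 1), ℓ k * Real.sin (k * h) with hS₂
  set S₁ := ∑ k ∈ Ico 1 (n - 1), ℓ k * Real.sin (((k : ℝ) - 1) * h) with hS₁
  set R₂ := S₂ / Real.sin h with hR₂
  set R₁ := S₁ / Real.sin h with hR₁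
  have hS₁pos : 0 < S₁ := by
    apply sum_pos'
    · intro k hk'
      exact mul_nonneg (hℓ k).le (hsk' k hk')
    · refine ⟨2, mem_Ico.2 ⟨by norm_num, by omega⟩, ?_⟩
      apply mul_pos (hℓ 2)
      have : (((2 : ℕ) : ℝ) - 1) * h = h := by push_cast; ring
      rw [this]
      exact hsin
  have hR₁pos : 0 < R₁ := div_pos hS₁pos hsin
  have hR₂ge : ∑ k ∈ Ico 1 (n - 1), ℓ k ≤ R₂ := by
    rw [hR₂, le_div_iff₀ hsin, sum_mul]
    exact sum_le_sum fun k hk' => mul_le_mul_of_nonneg_left (hsk k hk') (hℓ k).le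
  have hR₂pos : 0 < R₂ := by
    apply lt_of_lt_of_le _ hR₂ge
    exact sum_pos (fun k _ => hℓ k) ⟨1, mem_Ico.2 ⟨le_rfl, by omega⟩⟩
  have hlen : ∀ i, 0 < Ln n R₁ R₂ ℓ i := by
    intro i
    unfold Ln
    split_ifs
    · exact hR₁pos
    · exact hR₂pos
    · exact hℓ _
  have hstep := Th_step (by omega : 2 ≤ n) hnh
  obtain ⟨P, hs, ht⟩ := mk_polygon n (by omega) (Ln n R₁ R₂ ℓ) (Th n h) hlen (by
      intro i
      unfold Ln
      rw [Int.add_emod_right]) (by
      intro i
      have h1 := hstep i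
      split_ifs at h1 <;> linarith) (by
      intro i
      rw [hstep]
      split_ifs <;> linarith) (Th_add (by omega) h) (by
      have hsplit : range n = Ico 0 (n - 1 + 1) := by
        rw [Nat.sub_add_cancel (by omega), range_eq_Ico]
      rw [hsplit, sum_Ico_succ_top (by omega), sum_eq_sum_Ico_succ_bot (by omega)]
      have t0 : (Ln n R₁ R₂ ℓ ((0 : ℕ) : ℤ) : ℂ) * exp ((Th n h ((0 : ℕ) : ℤ) : ℂ) * I) = R₁ := by
        have e1 : Ln n R₁ R₂ ℓ ((0 : ℕ) : ℤ) = R₁ := by
          unfold Ln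
          simp
        have e2 : Th n h ((0 : ℕ) : ℤ) = 0 := by
          rw [Nat.cast_zero, Th_small le_rfl (by omega)]
          unfold thz
          rw [if_neg (by omega)]
          simp
        rw [e1, e2]
        simp
      have t1 : (Ln n R₁ R₂ ℓ ((n - 1 : ℕ) : ℤ) : ℂ) * exp ((Th n h ((n - 1 : ℕ) : ℤ) : ℂ) * I) =
          -(R₂ : ℂ) * exp ((h : ℂ) * I) := by
        have e0 : (((n - 1 : ℕ) : ℤ)) % n = n - 1 := by
          rw [Int.emod_eq_of_lt (by omega) (by omega)]
          omega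
        have e1 : Ln n R₁ R₂ ℓ ((n - 1 : ℕ) : ℤ) = R₂ := by
          unfold Ln
          rw [e0, if_neg (by omega), if_pos rfl]
        have e2 : Th n h ((n - 1 : ℕ) : ℤ) = Real.pi + h := by
          rw [Th_small (by omega) (by omega)]
          unfold thz
          rw [if_pos (by omega)]
          linarith
        rw [e1, e2]
        push_cast
        rw [add_mul, exp_add, exp_pi_mul_I]
        ring
      have t2 : ∑ k ∈ Ico (0 + 1) (n - 1), (Ln n R₁ R₂ ℓ (k : ℤ) : ℂ) * exp ((Th n h (k : ℤ) : ℂ) * I) =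
          ∑ k ∈ Ico 1 (n - 1), (ℓ k : ℂ) * exp (((k * h : ℝ) : ℂ) * I) := by
        apply sum_congr rfl
        intro k hk'
        rw [mem_Ico] at hk'
        have e0 : ((k : ℤ)) % n = k := Int.emod_eq_of_lt (by omega) (by omega)
        have e1 : Ln n R₁ R₂ ℓ (k : ℤ) = ℓ k := by
          unfold Ln
          rw [e0, if_neg (by omega), if_neg (by omega), Int.toNat_natCast]
        have e2 : Th n h (k : ℤ) = k * h := by
          rw [Th_small (by omega) (by omega)]
          unfold thz
          rw [if_neg (by omega)]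
          push_cast
          ring
        rw [e1, e2]
      rw [t0, t1, t2]
      apply Complex.ext
      · rw [add_re, add_re, Complex.re_sum, ofReal_re, ← ofReal_neg, re_ofReal_mul,
          exp_ofReal_mul_I_re, zero_re]
        have e3 : ∀ k ∈ Ico 1 (n - 1), ((ℓ k : ℂ) * exp (((k * h : ℝ) : ℂ) * I)).re =
            ℓ k * Real.cos (k * h) := by
          intro k _
          rw [re_ofReal_mul, exp_ofReal_mul_I_re]
        rw [sum_congr rfl e3]
        have e4 : S₁ + (∑ k ∈ Ico 1 (n - 1), ℓ k * Real.cos (k * h)) * Real.sin h -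
            S₂ * Real.cos h = 0 := by
          rw [hS₁, hS₂, sum_mul, sum_mul, ← sum_add_distrib, ← sum_sub_distrib]
          apply sum_eq_zero
          intro k _
          have e5 : Real.sin (((k : ℝ) - 1) * h) =
              Real.sin (k * h) * Real.cos h - Real.cos (k * h) * Real.sin h := by
            rw [← Real.sin_sub]
            congr 1
            ring
          rw [e5]
          ring
        rw [hR₁, hR₂]
        field_simp
        linarith
      · rw [add_im, add_im, Complex.im_sum, ofReal_im, ← ofReal_neg, im_ofReal_mul,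
          exp_ofReal_mul_I_im, zero_im]
        have e3 : ∀ k ∈ Ico 1 (n - 1), ((ℓ k : ℂ) * exp (((k * h : ℝ) : ℂ) * I)).im =
            ℓ k * Real.sin (k * h) := by
          intro k _
          rw [im_ofReal_mul, exp_ofReal_mul_I_im]
        rw [sum_congr rfl e3, ← hS₂, hR₂]
        field_simp
        ring)
  refine ⟨P, R₁, R₂, hR₁pos, hR₂ge, ?_, ?_, ?_, ?_, ?_, ?_⟩
  · have h1 := hs 0
    rw [zero_add, P.s_zero, zero_add] at h1
    rw [h1]
    unfold Ln
    simp
  · intro k hk1 hk2
    rw [hs]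
    congr 1
    have e0 : ((k : ℤ)) % n = k := Int.emod_eq_of_lt (by omega) (by omega)
    unfold Ln
    rw [e0, if_neg (by omega), if_neg (by omega), Int.toNat_natCast]
  · have h1 := hs ((n : ℤ) - 1)
    rw [sub_add_cancel] at h1
    have e0 : ((n : ℤ) - 1) % n = n - 1 := Int.emod_eq_of_lt (by omega) (by omega)
    unfold Polygon.L
    rw [h1]
    congr 1
    unfold Ln
    rw [e0, if_neg (by omega), if_pos rfl]
  · rw [ht]
    have h1 := hstep (0 - 1)
    rw [sub_add_cancel] at h1
    have e0 : (0 - 1 : ℤ) % n = n - 1 := by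
      have := (emod_aux (n := n) (r := n - 1) (q := -1) (by omega) (by omega)).1
      rw [show ((n : ℤ) - 1 + n * -1) = 0 - 1 by ring] at this
      exact this
    rw [e0, if_pos rfl] at h1
    exact h1
  · intro k hk1 hk2
    rw [ht]
    have h1 := hstep ((k : ℤ) - 1)
    rw [sub_add_cancel] at h1
    have e0 : ((k : ℤ) - 1) % n = k - 1 := Int.emod_eq_of_lt (by omega) (by omega)
    rw [e0, if_neg (by omega), if_neg (by omega)] at h1
    exact h1
  · rw [ht]
    have h1 := hstep ((n : ℤ) - 1 - 1)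
    rw [sub_add_cancel] at h1
    have e0 : ((n : ℤ) - 1 - 1) % n = n - 2 := by
      rw [Int.emod_eq_of_lt (by omega) (by omega)]
      ring
    rw [e0, if_neg (by omega), if_pos rfl] at h1
    exact h1

end Pool.Agent.R711.YG
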